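import Pool.Agent.H65.NV.PTargets

/-!
# Row P_RSF of `nvk_modules`: representatives modulo an ideal, inside an ideal
-/

set_option autoImplicit false

open MeasureTheory Set Filter NumberField NumberField.InfinitePlace
open scoped Real

namespace Pool.Agent.H1.NVP_RSF

open Pool.Agent.H65.CM4 Pool.Agent.H61.NVK Pool.Agent.H89.NV Pool.Agent.H65.NV

section

variable {k : Type} [Field k] [NumberField k]

/-- `s` is a system of representatives of `Λ` modulo `I` -/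
structure Sys (s : Finset (𝓞 k)) (Λ I : Ideal (𝓞 k)) : Prop where
  mem : ∀ y ∈ s, y ∈ Λ
  ex : ∀ x ∈ Λ, ∃! y, y ∈ s ∧ x - y ∈ I

theorem sub_mem_comm {I : Ideal (𝓞 k)} {x y : 𝓞 k} (h : x - y ∈ I) : y - x ∈ I := by
  have := I.neg_mem h
  rwa [neg_sub] at this

theorem sys_sum (h3 : ∀ (I : Ideal (𝓞 k)) (s t : Finset (𝓞 k)) (g : 𝓞 k → ℝ),
    (∀ x ∈ s, ∃! y, y ∈ t ∧ x - y ∈ I) → (∀ y ∈ t, ∃! x, x ∈ s ∧ x - y ∈ I) →
    (∀ x, ∀ y ∈ I, g (x + y) = g x) → ∑ x ∈ s, g x = ∑ y ∈ t, g y)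
    {Λ I : Ideal (𝓞 k)} {s t : Finset (𝓞 k)} (hI : I ≤ Λ) (hs : Sys s Λ I) (ht : Sys t Λ I)
    (g : 𝓞 k → ℝ) (hg : ∀ x ∈ Λ, ∀ y ∈ I, g (x + y) = g x) :
    ∑ x ∈ s, g x = ∑ x ∈ t, g x := by
  classical
  have h := h3 I s t (fun x => if x ∈ Λ then g x else 0)
    (fun x hx => ht.ex x (hs.mem x hx)) (by
      intro y hy
      obtain ⟨x, ⟨hx1, hx2⟩, hx3⟩ := hs.ex y (ht.mem y hy)
      exact ⟨x, ⟨hx1, sub_mem_comm hx2⟩, fun x' h => hx3 x' ⟨h.1, sub_mem_comm h.2⟩⟩) (by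
      intro x y hy
      change (if x + y ∈ Λ then g (x + y) else 0) = if x ∈ Λ then g x else 0
      by_cases hx : x ∈ Λ
      · rw [if_pos (Λ.add_mem hx (hI hy)), if_pos hx, hg x hx y hy]
      · have hn : x + y ∉ Λ := by
          intro h
          have := Λ.sub_mem h (hI hy)
          rw [add_sub_cancel_right] at this
          exact hx this
        rw [if_neg hn, if_neg hx])
  rwa [Finset.sum_congr rfl (fun x hx => if_pos (hs.mem x hx)),
    Finset.sum_congr rfl (fun x hx => if_pos (ht.mem x hx))] at h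

theorem sys_card (h3 : ∀ (I : Ideal (𝓞 k)) (s t : Finset (𝓞 k)) (g : 𝓞 k → ℝ),
    (∀ x ∈ s, ∃! y, y ∈ t ∧ x - y ∈ I) → (∀ y ∈ t, ∃! x, x ∈ s ∧ x - y ∈ I) →
    (∀ x, ∀ y ∈ I, g (x + y) = g x) → ∑ x ∈ s, g x = ∑ y ∈ t, g y)
    {Λ I : Ideal (𝓞 k)} {s t : Finset (𝓞 k)} (hI : I ≤ Λ) (hs : Sys s Λ I) (ht : Sys t Λ I) :
    s.card = t.card := by
  have h := sys_sum h3 hI hs ht (fun _ => 1) (fun _ _ _ _ => rfl)
  simp only [Finset.sum_const, nsmul_eq_mul, mul_one] at h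
  exact_mod_cast h

open Classical in
theorem sys_translate {Λ I : Ideal (𝓞 k)} {s : Finset (𝓞 k)} (hs : Sys s Λ I) {z : 𝓞 k}
    (hz : z ∈ Λ) : Sys (s.image (fun x => x + z)) Λ I := by
  constructor
  · intro y hy
    rw [Finset.mem_image] at hy
    obtain ⟨x, hx, rfl⟩ := hy
    exact Λ.add_mem (hs.mem x hx) hz
  · intro x hx
    obtain ⟨y, ⟨hy1, hy2⟩, hy3⟩ := hs.ex (x - z) (Λ.sub_mem hx hz)
    refine ⟨y + z, ⟨Finset.mem_image_of_mem _ hy1, ?_⟩, ?_⟩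
    · have e : x - (y + z) = x - z - y := by ring
      change x - (y + z) ∈ I
      rw [e]
      exact hy2
    · rintro y' ⟨h1, h2⟩
      rw [Finset.mem_image] at h1
      obtain ⟨w, hw, rfl⟩ := h1
      have e : x - (w + z) = x - z - w := by ring
      change x - (w + z) ∈ I at h2
      rw [e] at h2
      rw [hy3 w ⟨hw, h2⟩]

open Classical in
theorem sys_coset {Λ I : Ideal (𝓞 k)} {S : Finset (𝓞 k)} (hI : I ≤ Λ)
    (hS : ∀ x, ∃! r, r ∈ S ∧ x - r ∈ I) (z : 𝓞 k) :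
    Sys ((S.filter (fun x => x - z ∈ Λ)).image (fun x => x - z)) Λ I := by
  constructor
  · intro y hy
    rw [Finset.mem_image] at hy
    obtain ⟨x, hx, rfl⟩ := hy
    exact (Finset.mem_filter.mp hx).2
  · intro x hx
    obtain ⟨y, ⟨hy1, hy2⟩, hy3⟩ := hS (x + z)
    have hyz : y - z ∈ Λ := by
      have h := Λ.sub_mem hx (hI hy2)
      have e : x - (x + z - y) = y - z := by ring
      rwa [e] at h
    refine ⟨y - z, ⟨Finset.mem_image_of_mem (fun x => x - z)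
      (Finset.mem_filter.mpr ⟨hy1, hyz⟩), ?_⟩, ?_⟩
    · have e : x - (y - z) = x + z - y := by ring
      change x - (y - z) ∈ I
      rw [e]
      exact hy2
    · rintro y' ⟨h1, h2⟩
      rw [Finset.mem_image] at h1
      obtain ⟨w, hw, rfl⟩ := h1
      have e : x - (w - z) = x + z - w := by ring
      change x - (w - z) ∈ I at h2
      rw [e] at h2
      rw [hy3 w ⟨(Finset.mem_filter.mp hw).1, h2⟩]

open Classical in
theorem card_coset (h3 : ∀ (I : Ideal (𝓞 k)) (s t : Finset (𝓞 k)) (g : 𝓞 k → ℝ),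
    (∀ x ∈ s, ∃! y, y ∈ t ∧ x - y ∈ I) → (∀ y ∈ t, ∃! x, x ∈ s ∧ x - y ∈ I) →
    (∀ x, ∀ y ∈ I, g (x + y) = g x) → ∑ x ∈ s, g x = ∑ y ∈ t, g y)
    {Λ I : Ideal (𝓞 k)} {S R : Finset (𝓞 k)} (hI : I ≤ Λ)
    (hS : ∀ x, ∃! r, r ∈ S ∧ x - r ∈ I) (hR : Sys R Λ I) (z : 𝓞 k) :
    (S.filter (fun x => x - z ∈ Λ)).card = R.card := by
  have h := sys_card h3 hI (sys_coset hI hS z) hR
  rw [Finset.card_image_of_injective _ (fun a b hab => by
    have h : a - z = b - z := hab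
    exact sub_left_inj.mp h)] at h
  exact h

end

variable (k : Type) [Field k] [NumberField k] [IsTotallyReal k]

open Classical in
theorem main (hRSB : T_RSB k) (J Λ : Ideal (𝓞 k)) (hJ : J ≠ ⊥) (hΛ : Λ ≠ ⊥) (R : Finset (𝓞 k))
    (hR : ∀ x, x ∈ R ↔ x ∈ Rs (J * Λ) ∧ x ∈ Λ) :
    Sys R Λ (J * Λ) ∧ R.card = Ideal.absNorm J := by
  obtain ⟨h1, -, h3⟩ := hRSB
  have hI : J * Λ ≤ Λ := Ideal.mul_le_right
  have hI0 : J * Λ ≠ ⊥ := mul_ne_zero hJ hΛ
  obtain ⟨hS, hSc⟩ := h1 (J * Λ) hI0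
  obtain ⟨hT, hTc⟩ := h1 Λ hΛ
  have hsys : Sys R Λ (J * Λ) := by
    constructor
    · intro y hy
      exact ((hR y).mp hy).2
    · intro x hx
      obtain ⟨r, ⟨hr1, hr2⟩, hr3⟩ := hS x
      have hr : r ∈ Λ := by
        have h := Λ.sub_mem hx (hI hr2)
        rwa [sub_sub_cancel] at h
      exact ⟨r, ⟨(hR r).mpr ⟨hr1, hr⟩, hr2⟩, fun r' h => hr3 r' ⟨((hR r').mp h.1).1, h.2⟩⟩
  refine ⟨hsys, ?_⟩
  choose ρ hρ using hT
  have hfib : (Rs (J * Λ)).card = ∑ a ∈ Rs Λ, ((Rs (J * Λ)).filter (fun x => ρ x = a)).card :=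
    Finset.card_eq_sum_card_fiberwise (fun x _ => (hρ x).1.1)
  have hfib2 : ∀ a ∈ Rs Λ, ((Rs (J * Λ)).filter (fun x => ρ x = a)).card = R.card := by
    intro a ha
    rw [← card_coset h3 hI hS hsys a]
    congr 1
    apply Finset.filter_congr
    intro x _
    constructor
    · intro h
      rw [← h]
      exact (hρ x).1.2
    · intro h
      exact ((hρ x).2 a ⟨ha, h⟩).symm
  rw [Finset.sum_congr rfl hfib2, Finset.sum_const, smul_eq_mul, hSc, hTc, map_mul, mul_comm] at hfib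
  have hΛ0 : Ideal.absNorm Λ ≠ 0 := by
    rw [Ne, Ideal.absNorm_eq_zero_iff]
    exact hΛ
  exact (Nat.eq_of_mul_eq_mul_left (Nat.pos_of_ne_zero hΛ0) hfib).symm

open Classical in
theorem pf_RSF (hRSB : T_RSB k) : T_RSF k := by
  intro J Λ hJ hΛ R hR
  obtain ⟨hsys, hcard⟩ := main k hRSB J Λ hJ hΛ R hR
  have hI : J * Λ ≤ Λ := Ideal.mul_le_right
  have hI0 : J * Λ ≠ ⊥ := mul_ne_zero hJ hΛ
  have h3 := hRSB.2.2
  refine ⟨hsys.ex, ?_, ?_⟩
  · unfold nm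
    rw [hcard]
  · intro g hg
    constructor
    · intro z hz
      have h := sys_sum h3 hI (sys_translate hsys hz) hsys g hg
      rw [Finset.sum_image (fun a _ b _ hab => add_right_cancel hab)] at h
      exact h
    · intro J' R' hJ' hR'
      have e : J' * J * Λ = J' * (J * Λ) := mul_assoc _ _ _
      have hJJ : J' * J ≠ ⊥ := mul_ne_zero hJ' hJ
      -- the representatives of `J Λ` modulo `J' J Λ`
      have hI2 : J' * (J * Λ) ≤ J * Λ := Ideal.mul_le_right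
      have hI20 : J' * (J * Λ) ≠ ⊥ := mul_ne_zero hJ' hI0
      obtain ⟨hS, hSc⟩ := hRSB.1 (J' * (J * Λ)) hI20
      obtain ⟨hsys2, hcard2⟩ := main k hRSB J' (J * Λ) hJ' hI0
        ((Rs (J' * (J * Λ))).filter (fun x => x ∈ J * Λ)) (fun x => Finset.mem_filter)
      choose! ρ hρ using hsys.ex
      have hR'Λ : ∀ x ∈ R', x ∈ Λ := fun x hx => ((hR' x).mp hx).2
      have hfib : ∑ x ∈ R', g x = ∑ r ∈ R, ∑ x ∈ R'.filter (fun x => ρ x = r), g x :=
        (Finset.sum_fiberwise_of_maps_to (fun x hx => (hρ x (hR'Λ x hx)).1.1) g).symm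
      rw [hfib, Finset.mul_sum]
      apply Finset.sum_congr rfl
      intro r hr
      have hrΛ : r ∈ Λ := hsys.mem r hr
      have h5 : R'.filter (fun x => ρ x = r) =
          (Rs (J' * (J * Λ))).filter (fun x => x - r ∈ J * Λ) := by
        ext x
        rw [Finset.mem_filter, Finset.mem_filter, hR' x, e]
        constructor
        · rintro ⟨⟨ha, hb⟩, hc⟩
          refine ⟨ha, ?_⟩
          rw [← hc]
          exact (hρ x hb).1.2
        · rintro ⟨ha, hb⟩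
          have hx : x ∈ Λ := by
            have h := Λ.add_mem (hI hb) hrΛ
            rwa [sub_add_cancel] at h
          exact ⟨⟨ha, hx⟩, ((hρ x hx).2 r ⟨hr, hb⟩).symm⟩
      have h6 : ∀ x ∈ R'.filter (fun x => ρ x = r), g x = g r := by
        intro x hx
        rw [h5, Finset.mem_filter] at hx
        have h := hg r hrΛ (x - r) hx.2
        rwa [add_sub_cancel] at h
      rw [Finset.sum_congr rfl h6, Finset.sum_const, nsmul_eq_mul, h5,
        card_coset h3 hI2 hS hsys2 r, hcard2]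
      rfl

end Pool.Agent.H1.NVP_RSF
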