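import Pool.Agent.H65.NV.PTargets

/-!
# Row P_EMS of `nvk_modules`: elementary facts on the embedding
-/

set_option autoImplicit false

open MeasureTheory Set Filter NumberField NumberField.InfinitePlace
open scoped Real

namespace Pool.Agent.H1.NVP_EMS

open Pool.Agent.H65.CM4 Pool.Agent.H61.NVK Pool.Agent.H89.NV Pool.Agent.H65.NV

variable (k : Type) [Field k] [NumberField k] [IsTotallyReal k]

theorem pf_EMS (hEMB : T_EMB k) : T_EMS k := by
  obtain ⟨h1, h2, h3, h4, h5, h6, h7, h8, h9, h10, h11, h12⟩ := hEMB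
  have hem : ∀ x : 𝓞 k, em x = fun v => rv v (algebraMap (𝓞 k) k x) := fun x => rfl
  have hNr : ∀ x : 𝓞 k, Nr (x : k) = ∏ v, |em x v| := fun x => rfl
  have hnat : ∀ n : ℕ, em (n : 𝓞 k) = fun _ => (n : ℝ) := by
    intro n
    rw [hem]
    funext v
    rw [map_natCast, map_natCast]
  refine ⟨?_, ?_, ?_, hnat, ?_, ?_, ?_, ?_, ?_, ?_, ?_⟩
  · intro x y
    refine ⟨?_, ?_, ?_, ?_⟩
    · rw [hem, hem, hem]
      funext v
      simp only [map_add, Pi.add_apply]
    · rw [hem, hem, hem]
      funext v
      simp only [map_mul, Pi.mul_apply]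
    · rw [hem, hem]
      funext v
      simp only [map_neg, Pi.neg_apply]
    · rw [hem, hem, hem]
      funext v
      simp only [map_sub, Pi.sub_apply]
  · rw [hem]
    funext v
    simp only [map_zero, Pi.zero_apply]
  · rw [hem]
    funext v
    simp only [map_one, Pi.one_apply]
  · intro x y hxy
    obtain ⟨v⟩ : Nonempty (Pl k) := inferInstance
    have h := congrFun hxy v
    have h' : rv v (algebraMap (𝓞 k) k x) = rv v (algebraMap (𝓞 k) k y) := h
    exact RingOfIntegers.coe_injective ((rv v).injective h')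
  · intro x v hx h0
    have h' : rv v (algebraMap (𝓞 k) k x) = 0 := h0
    rw [map_eq_zero] at h'
    exact hx (RingOfIntegers.coe_eq_zero_iff.mp h')
  · intro x
    rw [h9 x, hNr]
  · intro I x hx hx0
    have hI : I ≠ ⊥ := by
      intro h
      rw [h, Submodule.mem_bot] at hx
      exact hx0 hx
    rw [← hNr]
    exact (h11 I hI).2 x hx hx0
  · intro n
    unfold ni
    rw [h9, hNr, hnat]
    simp only [Nat.abs_cast, Finset.prod_const, Finset.card_univ, h1]
  · unfold nm
    rw [Ideal.absNorm_top, Nat.cast_one]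
  · intro n I x
    unfold ni
    rw [Ideal.mem_span_singleton_mul]
    constructor
    · rintro ⟨z, hz, hz2⟩
      exact ⟨z, hz, hz2.symm⟩
    · rintro ⟨z, hz, hz2⟩
      exact ⟨z, hz, hz2.symm⟩

end Pool.Agent.H1.NVP_EMS
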