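import Pool.Agent.H65.NV.PTargets

/-!
# Row P_REA of `nvk_modules`: the discriminant in terms of the last coefficient
-/

set_option autoImplicit false

open MeasureTheory Set Filter NumberField NumberField.InfinitePlace
open scoped Real

namespace Pool.Agent.H1.NVP_REA

open Pool.Agent.H65.CM4 Pool.Agent.H61.NVK Pool.Agent.H89.NV Pool.Agent.H65.NV

variable (k : Type) [Field k] [NumberField k] [IsTotallyReal k]

omit [IsTotallyReal k] in
theorem q4_mul (c : 𝓞 k) : q4 (4 * c) = c := by
  have h : ∃ c' : 𝓞 k, 4 * c' = 4 * c := ⟨c, rfl⟩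
  unfold q4
  rw [dif_pos h]
  exact mul_left_cancel₀ (by norm_num) h.choose_spec

open Classical in
theorem pf_REA (hRSB : T_RSB k) (hEMS : T_EMS k) : T_REA k := by
  intro f A Z s hf hA hZ
  have hni := hEMS.2.2.2.2.2.2.2.2.2.2
  -- the sum over the middle coefficients
  have e1 : ∀ D : 𝓞 k, ∑ b ∈ bs f A D, Z D b (q4 (b ^ 2 + D)) =
      ∑ b ∈ (Rs (ni k 2 * (A * f))).filter (fun b => b ∈ f),
        if b ^ 2 + D ∈ ni k 4 * (A * f ^ 2) then Z D b (q4 (b ^ 2 + D)) else 0 := by
    intro D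
    unfold bs
    rw [← Finset.sum_filter, Finset.filter_filter]
  have e2 : (∑' D : 𝓞 k, ∑ b ∈ bs f A D, Z D b (q4 (b ^ 2 + D))) =
      ∑ b ∈ (Rs (ni k 2 * (A * f))).filter (fun b => b ∈ f), ∑' D : 𝓞 k,
        if b ^ 2 + D ∈ ni k 4 * (A * f ^ 2) then Z D b (q4 (b ^ 2 + D)) else 0 := by
    rw [tsum_congr e1]
    apply Summable.tsum_finsetSum
    intro b _
    apply summable_of_ne_finset_zero (s := s)
    intro D hD
    rw [hZ D b _ hD, ite_self]
  rw [e2]
  apply Finset.sum_congr rfl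
  intro b _
  have hinj : Function.Injective (fun c : 𝓞 k => 4 * c - b ^ 2) := by
    intro c c' h
    have h2 : 4 * c = 4 * c' := by
      have h3 : 4 * c - b ^ 2 = 4 * c' - b ^ 2 := h
      linear_combination h3
    exact mul_left_cancel₀ (by norm_num) h2
  rw [← hinj.tsum_eq]
  · apply tsum_congr
    intro c
    have h1 : b ^ 2 + (4 * c - b ^ 2) = 4 * c := by ring
    rw [h1, q4_mul]
    have h2 : (4 * c ∈ ni k 4 * (A * f ^ 2)) ↔ c ∈ A * f ^ 2 := by
      rw [hni 4]
      constructor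
      · rintro ⟨y, hy, hy2⟩
        have h3 : (4 : 𝓞 k) * c = 4 * y := by
          rw [hy2]
          norm_num
        rw [mul_left_cancel₀ (by norm_num) h3]
        exact hy
      · intro hc
        exact ⟨c, hc, by norm_num⟩
    simp only [h2]
  · intro D hD
    rw [Function.mem_support] at hD
    have h1 : b ^ 2 + D ∈ ni k 4 * (A * f ^ 2) := by
      by_contra hn
      exact hD (if_neg hn)
    rw [hni 4] at h1
    obtain ⟨y, -, hy⟩ := h1
    refine ⟨y, ?_⟩
    change 4 * y - b ^ 2 = D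
    have h2 : b ^ 2 + D = 4 * y := by
      rw [hy]
      norm_num
    linear_combination -h2

end Pool.Agent.H1.NVP_REA
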